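import Pool.Agent.U436.KC.Core
import Pool.Agent.U436.HP.Main

/-!
# Weighted diagonal complete intersections with arbitrary exponents
-/

set_option autoImplicit false

namespace Pool.Agent.U436.WT

open Polynomial Finset
open Pool.Agent.U436.HP (wt wt_ne_zero exists_poly_iff poly_eq_zero)

variable {k : Type*} [Field k] {N N' : ℕ}

/-- The quasi-homogeneous polynomial `∑ i, c i * p i ^ j * X i ^ n i`. -/
noncomputable def form (n : Fin N → ℕ) (p c : Fin N → k) (j : ℕ) : MvPolynomial (Fin N) k :=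
  ∑ i, MvPolynomial.C (c i * p i ^ j) * MvPolynomial.X i ^ n i

/-- The nonzero solutions of the `m` equations `∑ i, c i * p i ^ j * x i ^ n i = 0`, `j < m`. -/
def pts (n : Fin N → ℕ) (m : ℕ) (p c : Fin N → k) : Set (Fin N → k) :=
  {x | x ≠ 0 ∧ ∀ j < m, MvPolynomial.eval x (form n p c j) = 0}

lemma eval_form (n : Fin N → ℕ) (p c : Fin N → k) (j : ℕ) (x : Fin N → k) :
    MvPolynomial.eval x (form n p c j) = ∑ i, c i * p i ^ j * x i ^ n i := by
  simp [form]

lemma pderiv_form (n : Fin N → ℕ) (p c : Fin N → k) (j : ℕ) (x : Fin N → k) (i : Fin N) :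
    MvPolynomial.eval x (MvPolynomial.pderiv i (form n p c j)) =
      n i * (c i * p i ^ j) * x i ^ (n i - 1) := by
  classical
  unfold form
  rw [map_sum, map_sum, Finset.sum_eq_single i]
  · rw [MvPolynomial.pderiv_C_mul, MvPolynomial.pderiv_pow, MvPolynomial.pderiv_X_self]
    simp; ring
  · intro l _ hl
    rw [MvPolynomial.pderiv_C_mul, MvPolynomial.pderiv_pow, MvPolynomial.pderiv_X_of_ne hl]
    simp
  · intro h; exact absurd (mem_univ i) h

lemma mem_pts_iff {n : Fin N → ℕ} {m d : ℕ} {p c : Fin N → k} (hp : Function.Injective p)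
    (hN : m + d + 1 = N) {x : Fin N → k} : x ∈ pts n m p c ↔
      x ≠ 0 ∧ ∃ P : k[X], P.natDegree ≤ d ∧ ∀ i, wt p i * P.eval (p i) = c i * x i ^ n i := by
  unfold pts
  rw [Set.mem_ofPred_eq]
  refine and_congr_right fun _ => ?_
  have h := exists_poly_iff hp hN (fun i => (wt p i)⁻¹ * (c i * x i ^ n i))
  have e1 : (∀ j < m, MvPolynomial.eval x (form n p c j) = 0) ↔
      ∀ j < m, ∑ i, wt p i * p i ^ j * ((wt p i)⁻¹ * (c i * x i ^ n i)) = 0 := by
    refine forall_congr' fun j => forall_congr' fun _ => ?_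
    rw [eval_form]
    have : ∀ i, c i * p i ^ j * x i ^ n i = wt p i * p i ^ j * ((wt p i)⁻¹ * (c i * x i ^ n i)) := by
      intro i
      have := wt_ne_zero hp i
      field_simp
    rw [Finset.sum_congr rfl fun i _ => this i]
  rw [e1, h]
  refine exists_congr fun P => and_congr_right fun _ => forall_congr' fun i => ?_
  have := wt_ne_zero hp i
  rw [eq_inv_mul_iff_mul_eq₀ this]

lemma poly_ne_zero {n : Fin N → ℕ} (hn : ∀ i, n i ≠ 0) {p c : Fin N → k} (hc : ∀ i, c i ≠ 0)
    {x : Fin N → k} (hx0 : x ≠ 0) {P : k[X]} (hP : ∀ i, wt p i * P.eval (p i) = c i * x i ^ n i) : P ≠ 0 := by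
  rintro rfl
  apply hx0
  funext i
  have := hP i
  simp only [eval_zero, mul_zero] at this
  have := (mul_eq_zero.mp this.symm).resolve_left (hc i)
  simpa using pow_eq_zero_iff (hn i) |>.mp this

/-- The Jacobian criterion. -/
theorem smooth {n : Fin N → ℕ} {m d : ℕ} (hn : ∀ i, (n i : k) ≠ 0) {p c : Fin N → k}
    (hp : Function.Injective p) (hc : ∀ i, c i ≠ 0) (hN : m + d + 1 = N) {x : Fin N → k}
    (hx : x ∈ pts n m p c) :
    LinearIndependent k (fun (j : Fin m) (i : Fin N) =>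
      MvPolynomial.eval x (MvPolynomial.pderiv i (form n p c j))) := by
  classical
  have hn0 : ∀ i, n i ≠ 0 := fun i h => hn i (by rw [h]; simp)
  obtain ⟨hx0, P, hPd, hP⟩ := (mem_pts_iff hp hN).mp hx
  have hP0 : P ≠ 0 := poly_ne_zero hn0 hc hx0 hP
  rw [Fintype.linearIndependent_iff]
  intro g hg
  set Q : k[X] := ∑ j : Fin m, C (g j) * X ^ (j : ℕ) with hQ
  have hQP : ∀ i, (Q * P).eval (p i) = 0 := by
    intro i
    rw [eval_mul]
    by_cases hxi : x i = 0
    · have := hP i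
      rw [hxi, zero_pow (hn0 i), mul_zero] at this
      rw [(mul_eq_zero.mp this).resolve_left (wt_ne_zero hp i), mul_zero]
    · have h1 := congrFun hg i
      simp only [Finset.sum_apply, Pi.smul_apply, smul_eq_mul, Pi.zero_apply] at h1
      rw [Finset.sum_congr rfl fun j _ => by rw [pderiv_form]] at h1
      have h2 : Q.eval (p i) * (n i * c i * x i ^ (n i - 1)) = 0 := by
        rw [← h1, hQ, eval_finsetSum, Finset.sum_mul]
        refine Finset.sum_congr rfl fun j _ => ?_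
        rw [eval_mul, eval_C, eval_pow, eval_X]; ring
      have h3 : (n i * c i * x i ^ (n i - 1) : k) ≠ 0 :=
        mul_ne_zero (mul_ne_zero (hn i) (hc i)) (pow_ne_zero _ hxi)
      rw [(mul_eq_zero.mp h2).resolve_right h3, zero_mul]
  have hQd : Q.natDegree ≤ m - 1 := by
    rw [hQ]
    refine natDegree_sum_le_of_forall_le _ _ fun j _ => ?_
    refine (natDegree_C_mul_X_pow_le _ _).trans ?_
    have := j.2; omega
  rcases Nat.eq_zero_or_pos m with hm | hm
  · intro j; exact absurd j.2 (by omega)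
  have hQP0 : Q * P = 0 := poly_eq_zero hp (lt_of_le_of_lt natDegree_mul_le (by omega)) hQP
  have hQ0 : Q = 0 := (mul_eq_zero.mp hQP0).resolve_right hP0
  intro j
  have h4 : Q.coeff (j : ℕ) = g j := by
    rw [hQ, finsetSum_coeff, Finset.sum_eq_single j]
    · simp
    · intro l _ hl
      rw [coeff_C_mul, coeff_X_pow, if_neg (fun h => hl (Fin.ext h.symm)), mul_zero]
    · intro h; exact absurd (mem_univ j) h
  rw [← h4, hQ0, coeff_zero]

/-- The curve with the same exponents. -/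
def curve (n : Fin N → ℕ) (p : Fin N → k) : Set (Fin N → k) := pts n (N - 2) p (wt p)

/-- The identity matrix of exponents. -/
def idm (N : ℕ) : Fin N → Fin N → ℕ := fun s i => if s = i then 1 else 0

lemma prod_idm (f : Fin N → k) (s : Fin N) : ∏ i, f i ^ idm N s i = f s := by
  rw [Finset.prod_eq_single s]
  · simp [idm]
  · intro i _ hi
    simp [idm, Ne.symm hi]
  · intro h; exact absurd (mem_univ s) h

lemma sum_idm (s : Fin N) : ∑ i, idm N s i = 1 := by
  simp [idm]

lemma mem_cover_iff {d : ℕ} {p : Fin N → k} {n : Fin N → ℕ} {P : k[X]} {y : Fin N → k} :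
    (P, y) ∈ KC.cover d p (idm N) n ↔ P ≠ 0 ∧ P.natDegree ≤ d ∧ ∀ s, y s ^ n s = P.eval (p s) := by
  unfold KC.cover
  rw [Set.mem_ofPred_eq]
  refine and_congr_right fun _ => and_congr_right fun _ => forall_congr' fun s => ?_
  rw [prod_idm (fun i => P.eval (p i)) s]

lemma curve_iff {n : Fin N → ℕ} (hn : ∀ i, n i ≠ 0) {p : Fin N → k} (hp : Function.Injective p) (hN : 2 ≤ N)
    {y : Fin N → k} : y ∈ curve n p ↔ ∃ L : k[X], (L, y) ∈ KC.cover 1 p (idm N) n := by
  unfold curve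
  rw [mem_pts_iff hp (show N - 2 + 1 + 1 = N by omega)]
  constructor
  · rintro ⟨hy0, L, hL, h⟩
    refine ⟨L, mem_cover_iff.mpr ⟨poly_ne_zero hn (fun i => wt_ne_zero hp i) hy0 h, hL, fun s => ?_⟩⟩
    exact (mul_left_cancel₀ (wt_ne_zero hp s) (h s)).symm
  · rintro ⟨L, hL⟩
    obtain ⟨hL0, hL1, h⟩ := mem_cover_iff.mp hL
    refine ⟨?_, L, hL1, fun i => by rw [h i]⟩
    rintro rfl
    refine hL0 (poly_eq_zero hp (by omega) fun i => ?_)
    rw [← h i]; simp [hn i]

variable {n E : Fin N → ℕ} {m d D : ℕ} {p c lam : Fin N → k}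

theorem prod_mem (hn : ∀ i, n i ≠ 0) (hp : Function.Injective p) (hd : 1 ≤ d)
    (hN : m + d + 1 = N) (hlam : ∀ i, c i * lam i ^ n i = wt p i) (y : Fin d → Fin N → k)
    (hy : ∀ j, y j ∈ curve n p) : (fun i => lam i * ∏ j, y j i) ∈ pts n m p c := by
  have hN2 : 2 ≤ N := by omega
  choose L hL using fun j => (curve_iff hn hp hN2).mp (hy j)
  have h1 := KC.prodMap_mem (u := fun j => (L j, y j)) hL
  obtain ⟨hP0, hPd, hP⟩ := mem_cover_iff.mp h1
  refine (mem_pts_iff hp hN).mpr ⟨?_, ∏ j, L j, hPd, fun i => ?_⟩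
  · intro h0
    refine hP0 (poly_eq_zero hp (lt_of_le_of_lt hPd (by omega)) fun i => ?_)
    have h2 := congrFun h0 i
    have h3 : lam i ≠ 0 := fun h => wt_ne_zero hp i (by rw [← hlam i, h, zero_pow (hn i), mul_zero])
    have h4 : ∏ j, y j i = 0 := (mul_eq_zero.mp h2).resolve_left h3
    have h5 := hP i
    rw [h4, zero_pow (hn i)] at h5
    exact h5.symm
  · have h5 : (∏ j, y j i) ^ n i = (∏ j, L j).eval (p i) := hP i
    show _ = c i * (lam i * ∏ j, y j i) ^ n i
    rw [mul_pow, ← mul_assoc, hlam, h5]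

theorem exists_prod [IsAlgClosed k] (hn : ∀ i, n i ≠ 0) (hp : Function.Injective p) (hc : ∀ i, c i ≠ 0)
    (hd : 1 ≤ d) (hN : m + d + 1 = N) (hlam : ∀ i, c i * lam i ^ n i = wt p i) {x : Fin N → k}
    (hx : x ∈ pts n m p c) :
    ∃ y : Fin d → Fin N → k, (∀ j, y j ∈ curve n p) ∧ ∀ i, x i = lam i * ∏ j, y j i := by
  have hN2 : 2 ≤ N := by omega
  have hlam0 : ∀ i, lam i ≠ 0 := fun i h => wt_ne_zero hp i (by rw [← hlam i, h, zero_pow (hn i), mul_zero])
  obtain ⟨hx0, P, hPd, hP⟩ := (mem_pts_iff hp hN).mp hx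
  have hz : (P, fun i => x i / lam i) ∈ KC.cover d p (idm N) n := by
    refine mem_cover_iff.mpr ⟨poly_ne_zero hn hc hx0 hP, hPd, fun s => ?_⟩
    rw [div_pow, div_eq_iff (pow_ne_zero _ (hlam0 s))]
    refine mul_left_cancel₀ (hc s) ?_
    rw [← hP s, ← hlam s]; ring
  obtain ⟨u, hu, hprod⟩ := KC.prodMap_surj hd hn hz
  refine ⟨fun j => (u j).2, fun j => (curve_iff hn hp hN2).mpr ⟨(u j).1, hu j⟩, fun i => ?_⟩
  have h1 : ∏ j, (u j).2 i = x i / lam i := congrFun (congrArg Prod.snd hprod) i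
  rw [h1, mul_div_cancel₀ _ (hlam0 i)]

theorem prod_eq_iff [IsAlgClosed k] (hn : ∀ i, n i ≠ 0) (hD : D ≠ 0) (hE : ∀ i, n i * E i = D)
    (hp : Function.Injective p) (hd : 1 ≤ d) (hN : m + d + 1 = N) (hlam0 : ∀ i, lam i ≠ 0)
    {y y' : Fin d → Fin N → k} (hy : ∀ j, y j ∈ curve n p) (hy' : ∀ j, y' j ∈ curve n p) :
    (∃ t : k, t ≠ 0 ∧ ∀ i, lam i * ∏ j, y' j i = t ^ E i * (lam i * ∏ j, y j i)) ↔
      ∃ (σ : Equiv.Perm (Fin d)) (ζ : Fin d → Fin N → k) (τ : k) (κ : Fin d → k),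
        (∀ j i, ζ j i ^ n i = 1) ∧ τ ^ D = 1 ∧ (∀ i, ∏ j, ζ j i = τ ^ E i) ∧ (∀ j, κ j ≠ 0) ∧
          ∀ j i, y' j i = κ j ^ E i * (ζ j i * y (σ j) i) := by
  have hN2 : 2 ≤ N := by omega
  choose L hL using fun j => (curve_iff hn hp hN2).mp (hy j)
  choose L' hL' using fun j => (curve_iff hn hp hN2).mp (hy' j)
  have hE' : ∀ s, n s * E s = D * ∑ i, idm N s i := fun s => by rw [sum_idm, mul_one, hE]
  have h := KC.prodMap_eq_iff (u := fun j => (L j, y j)) (u' := fun j => (L' j, y' j)) hn hD hE' hL hL'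
  have hpd := fun (M : Fin d → k[X]) (z : Fin d → Fin N → k)
    (hM : ∀ j, (M j, z j) ∈ KC.cover 1 p (idm N) n) =>
      mem_cover_iff.mp (KC.prodMap_mem (u := fun j => (M j, z j)) hM)
  constructor
  · rintro ⟨t, ht, h1⟩
    have h1' : ∀ i, ∏ j, y' j i = t ^ E i * ∏ j, y j i := by
      intro i
      refine mul_left_cancel₀ (hlam0 i) ?_
      rw [h1 i]; ring
    have h2 : ∏ j, L' j = C (t ^ D) * ∏ j, L j := by
      rw [← sub_eq_zero]
      refine poly_eq_zero hp ?_ fun i => ?_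
      · refine lt_of_le_of_lt (natDegree_sub_le _ _) (max_lt ?_ ?_)
        · exact lt_of_le_of_lt (hpd L' y' hL').2.1 (by omega)
        · rw [natDegree_C_mul (pow_ne_zero _ ht)]
          exact lt_of_le_of_lt (hpd L y hL).2.1 (by omega)
      · have e1 : (∏ j, y' j i) ^ n i = (∏ j, L' j).eval (p i) := (hpd L' y' hL').2.2 i
        have e2 : (∏ j, y j i) ^ n i = (∏ j, L j).eval (p i) := (hpd L y hL).2.2 i
        rw [eval_sub, eval_mul, eval_C, ← e1, ← e2, h1' i, mul_pow, ← pow_mul, mul_comm (E i), hE, sub_self]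
    obtain ⟨σ, ζ, τ, κ, h3, h4, h5, h6, h7⟩ := h.mp ⟨t, ht, h2, h1'⟩
    exact ⟨σ, ζ, τ, κ, h3, h4, h5, h6, fun j i => (h7 j).2 i⟩
  · rintro ⟨σ, ζ, τ, κ, h3, h4, h5, h6, h7⟩
    have hLL : ∀ j, L' j = C (κ j ^ D) * L (σ j) := by
      intro j
      obtain ⟨-, a1, a2⟩ := mem_cover_iff.mp (hL' j)
      obtain ⟨-, b1, b2⟩ := mem_cover_iff.mp (hL (σ j))
      rw [← sub_eq_zero]
      refine poly_eq_zero hp ?_ fun i => ?_
      · refine lt_of_le_of_lt (natDegree_sub_le _ _) (max_lt (by omega) ?_)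
        rw [natDegree_C_mul (pow_ne_zero _ (h6 j))]; omega
      · rw [eval_sub, eval_mul, eval_C, ← a2, ← b2, h7 j i, mul_pow, mul_pow, h3, one_mul, ← pow_mul,
          mul_comm (E i), hE, sub_self]
    obtain ⟨t, ht, -, h1⟩ := h.mpr ⟨σ, ζ, τ, κ, h3, h4, h5, h6, fun j => ⟨hLL j, h7 j⟩⟩
    exact ⟨t, ht, fun i => by
      have : ∏ j, y' j i = t ^ E i * ∏ j, y j i := h1 i
      rw [this]; ring⟩

/-- The coordinate strata are varieties of the same kind. -/
theorem stratum (hn : ∀ i, n i ≠ 0) (p c : Fin N → k) {g : Fin N' → Fin N} (hg : Function.Injective g)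
    (x : Fin N' → k) :
    Function.extend g x 0 ∈ pts n m p c ↔ x ∈ pts (n ∘ g) m (p ∘ g) (c ∘ g) := by
  classical
  have h1 : ∀ j, ∑ i, c i * p i ^ j * (Function.extend g x 0 i) ^ n i
      = ∑ i, (c ∘ g) i * (p ∘ g) i ^ j * x i ^ (n ∘ g) i := by
    intro j
    rw [← Finset.sum_subset (Finset.subset_univ (univ.image g)) (fun i _ hi => ?_),
      Finset.sum_image (fun a _ b _ h => hg h)]
    · refine Finset.sum_congr rfl fun i _ => ?_
      rw [hg.extend_apply]; rfl
    · have : ¬ ∃ a, g a = i := by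
        rintro ⟨a, ha⟩
        exact hi (Finset.mem_image.mpr ⟨a, mem_univ a, ha⟩)
      rw [Function.extend_apply' _ _ _ this, Pi.zero_apply, zero_pow (hn i), mul_zero]
  have h2 : Function.extend g x 0 = 0 ↔ x = 0 := by
    constructor
    · intro h
      funext i
      have := congrFun h (g i)
      rwa [hg.extend_apply] at this
    · rintro rfl
      funext i
      by_cases h : ∃ a, g a = i
      · obtain ⟨a, rfl⟩ := h
        rw [hg.extend_apply]; rfl
      · rw [Function.extend_apply' _ _ _ h]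
  unfold pts
  rw [Set.mem_ofPred_eq, Set.mem_ofPred_eq]
  refine and_congr (not_congr h2) (forall_congr' fun j => forall_congr' fun _ => ?_)
  rw [eval_form, eval_form, h1]

/-- The points have at most `d` coordinates equal to zero. -/
theorem card_zeros_le (hn : ∀ i, n i ≠ 0) (hp : Function.Injective p)
    (hc : ∀ i, c i ≠ 0) (hN : m + d + 1 = N) {x : Fin N → k} (hx : x ∈ pts n m p c) [DecidableEq k] :
    (univ.filter fun i => x i = 0).card ≤ d := by
  classical
  obtain ⟨hx0, P, hPd, hP⟩ := (mem_pts_iff hp hN).mp hx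
  have hP0 : P ≠ 0 := poly_ne_zero hn hc hx0 hP
  have hsub : (univ.filter fun i => x i = 0).image p ⊆ P.roots.toFinset := by
    intro a ha
    obtain ⟨i, hi, rfl⟩ := Finset.mem_image.mp ha
    rw [Multiset.mem_toFinset, mem_roots hP0, IsRoot]
    have h1 := hP i
    rw [(Finset.mem_filter.mp hi).2, zero_pow (hn i), mul_zero] at h1
    exact (mul_eq_zero.mp h1).resolve_left (wt_ne_zero hp i)
  calc (univ.filter fun i => x i = 0).card = ((univ.filter fun i => x i = 0).image p).card :=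
        (Finset.card_image_of_injective _ hp).symm
    _ ≤ P.roots.toFinset.card := Finset.card_le_card hsub
    _ ≤ Multiset.card P.roots := Multiset.toFinset_card_le _
    _ ≤ P.natDegree := card_roots' P
    _ ≤ d := hPd

/-- Existence of the scaling factors. -/
theorem exists_lam [IsAlgClosed k] (hn : ∀ i, n i ≠ 0) (hp : Function.Injective p)
    (hc : ∀ i, c i ≠ 0) : ∃ lam : Fin N → k, (∀ i, lam i ≠ 0) ∧ ∀ i, c i * lam i ^ n i = wt p i := by
  choose lam hlam using fun i => IsAlgClosed.exists_pow_nat_eq (wt p i / c i) (Nat.pos_of_ne_zero (hn i))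
  have h1 : ∀ i, c i * lam i ^ n i = wt p i := fun i => by
    rw [hlam i, mul_div_cancel₀ _ (hc i)]
  exact ⟨lam, fun i h => wt_ne_zero hp i (by rw [← h1 i, h, zero_pow (hn i), mul_zero]), h1⟩

/-- The variety is empty if there are at most `m` coordinates. -/
theorem pts_eq_empty (hn : ∀ i, n i ≠ 0) (hp : Function.Injective p) (hc : ∀ i, c i ≠ 0) (hN : N ≤ m) :
    pts n m p c = ∅ := by
  classical
  rw [Set.eq_empty_iff_forall_notMem]
  rintro x ⟨hx0, hx⟩
  apply hx0
  funext i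
  set Q : k[X] := ∏ l ∈ univ.erase i, (X - C (p l)) with hQ
  have hQd : Q.natDegree < m := by
    rw [hQ, natDegree_prod_of_monic _ _ fun j _ => monic_X_sub_C _]
    simp only [natDegree_X_sub_C, Finset.sum_const, smul_eq_mul, mul_one]
    rw [card_erase_of_mem (mem_univ i)]
    simp only [card_univ, Fintype.card_fin]
    have := i.2; omega
  have h1 : ∑ l, c l * x l ^ n l * Q.eval (p l) = 0 := by
    have h2 : ∀ l, c l * x l ^ n l * Q.eval (p l) =
        ∑ j ∈ range m, Q.coeff j * (c l * p l ^ j * x l ^ n l) := by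
      intro l
      rw [eval_eq_sum_range' hQd, Finset.mul_sum]
      exact Finset.sum_congr rfl fun j _ => by ring
    rw [Finset.sum_congr rfl fun l _ => h2 l, Finset.sum_comm]
    refine Finset.sum_eq_zero fun j hj => ?_
    rw [← Finset.mul_sum, ← eval_form, hx j (mem_range.mp hj), mul_zero]
  have h3 : c i * x i ^ n i * Q.eval (p i) = 0 := by
    rw [← h1]
    symm
    refine Finset.sum_eq_single i (fun l _ hl => ?_) (fun h => absurd (mem_univ i) h)
    have : Q.eval (p l) = 0 := by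
      rw [hQ, eval_prod]
      exact Finset.prod_eq_zero (mem_erase.mpr ⟨hl, mem_univ l⟩) (by simp)
    rw [this, mul_zero]
  have h4 : Q.eval (p i) ≠ 0 := by
    rw [hQ, eval_prod]
    refine Finset.prod_ne_zero_iff.mpr fun l hl => ?_
    rw [eval_sub, eval_X, eval_C, sub_ne_zero]
    exact fun h => (ne_of_mem_erase hl) (hp h.symm)
  have h5 := (mul_eq_zero.mp ((mul_eq_zero.mp h3).resolve_right h4)).resolve_left (hc i)
  exact (pow_eq_zero_iff (hn i)).mp h5

end Pool.Agent.U436.WT
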